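import Mathlib
import Pool.Agent.TH170.GS.Main
import Pool.Agent.Y1.KN.All
import Pool.Agent.Y1.KN.Use
import Pool.Agent.Run7.h312.MU.Main
import Pool.Agent.TH117.GN.Main

/-!
# Independence of the Chow–Künneth filtration of isotrivial varieties over function fields: almost
all slope types of all CM fields with few CM subfields, and of all CM fields whose degree has a
large prime factor

Over an algebraic closure of the field with `p` elements each abelian variety is isogenous to the
reduction of an abelian variety of CM type (Honda, Tate). So an abelian variety over the field with
`p ^ a` elements is modelled by `RedAV`: a finite product of CM types `(E i, Φ i)` with Weil numbers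
`π i ∈ E i` that satisfy the formula of Shimura and Taniyama; its cohomology of degree `n`, with
coefficients in an algebraically closed field `Ω`, consists of the alternating `n`-forms on `Ω ⊗
H_1`, on which the Frobenius endomorphism acts by `π`. We fix an isomorphism `ν` of the algebraic
closure of `ℚ_p` with `ℂ`; it defines a `p`-adic valuation of `ℂ`, with the value one at `p`.

Let `K i` be finitely many CM fields, of degrees `2 g i`, that are pairwise independent: for `i ≠ k`
and all complex embeddings `φ` of `K i` and `ψ` of `K k` some automorphism of `ℂ` is the identity on
`φ (K i)` and the complex conjugation on `ψ (K k)` (this is no condition for one field). Nothing is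
assumed about their Galois groups. Let `M i` be a function with nonzero integral values, all of
which divide `n i`, on the complex embeddings of `K i`, invariant under complex conjugation (the
weights). A CM type `Φ i` of `K i` (a choice of one element out of each complex conjugate pair of
embeddings; there are `2 ^ (g i)` types), `M i` and a real number `κ ≠ 0` prescribe the slopes `(a +
κ M) / 2` (at the embeddings in `Φ i`) and `(a - κ M) / 2` (outside of `Φ i`) of a Weil number in `K
i`. If `p` splits completely in `K i` then, by Honda and Tate, all slopes with rational values
between `0` and `a` that are symmetric in this way occur for abelian varieties. The case `M = 1`, `κ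
= a` is the ordinary case; the assumption on `M` says that `a / 2` is not a slope. Slopes are
rational, so integral weights `M` are no restriction.

For a family of types `Φ i` let `𝒞` (`OfTypes`) be the class of the abelian varieties `Y` each of
whose factors is supersingular or has a Frobenius endomorphism some power of which is, for some `i`,
a Weil number in `K i` with the slopes prescribed by `Φ i`, `M i` and some real number `κ i ≠ 0`
(which depends only on `Y` and `i`). So `Y` is, over an algebraic closure, isogenous to a product of
powers of one abelian variety for each `i`, with the given slopes, and of a supersingular one.

Let `Y` be smooth, projective and geometrically connected over the finite field `k`, of any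
dimension, with the function field `K = k(Y)`. A constant variety `X` over `K` is the base change of a
smooth projective variety `X₀` over `k`. Put `P = X₀ × Y`. We assume that the motive of `P` is a direct
summand of a finite direct sum of twists of motives of abelian varieties as above
(`IsSummandOfTwists`). For example `X₀` and `Y` may be products of such abelian varieties, of curves
the Jacobians of which are such abelian varieties, symmetric powers of them, and so on (such that
the products of these abelian varieties are of the same kind). `Cyc` are the data of the Chow groups of
`P`, the groups `H^(2 i)(P)` and the class map. `Fibre` are the data of the restriction `CH^i(P) →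
CH^i(X)` of cycles to the generic fibre and of the Künneth components of the classes in `H^(2 i)(P)`,
and `IsConstant` lists the formal properties that are used. `Variety` are the data of the Chow groups
with rational coefficients, the cohomology, the ring of the correspondences of degree zero (not only
the constant ones: all elements of `CH^d(X ×_K X)`) and its operations.

`Summand X' X` are data for a smooth projective variety `X'` over a field `K'` contained in `K` (or
over `K`) the motive of which is, over `K`, a direct summand of the motive of a constant variety `X`:
for instance an isotrivial variety (a variety over `K'` that is constant over a finite extension `K`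
of `K'`), or a variety which is dominated by a constant variety.

A Chow–Künneth decomposition (`IsCK`) `π` of `X'` gives the filtration `F^k CH^i(X') = (π (2 i - k) +
⋯ + π 0)_* CH^i(X')` (`InF`). It is not trivial in general: for example `F^1 CH^1(X') = Pic^0(X') ⊗ ℚ`
is given by the homomorphisms of the Albanese variety of `Y` to an abelian variety, and the graded
parts of higher degree by the transcendental parts of the motives `h^l(Y)`.

The property `Q` of a family of types (`HoldsFor`, for the abelian varieties in `𝒞`): for all such `X'`

* (`OneFiltration`) **all Chow–Künneth decompositions of `X'` induce the same filtration of
  `CH^i(X')`**, for all `i` (Murre's conjecture (C), the question). Moreover `F^0 = CH^i(X')`, `F^1` is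
  the group of the homologically trivial cycles (Murre's conjecture (D)), all correspondences `γ`
  respect the filtration, and `γ` maps `F^k` to `F^(k + 1)` if it is zero on `H^(2 i - k)(X')`.
* (`Ends`) `F^(i + 1) CH^i(X') = 0` (Murre's conjecture (B)), if `X₀` satisfies the standard conjecture
  of Lefschetz type (`IsLefschetz`), which is known for abelian varieties, curves and products of them.

Properties of the theory of cycles that are used for the abelian varieties (`IsChow`): Poincaré
duality, the formal properties of correspondences, the nilpotence of homologically trivial
correspondences (Kimura), the operation of the Frobenius endomorphism on the Chow groups, and the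
algebraicity of the classes in `Alg` (of which only products of classes of divisors matter here,
theorem of Tate).

A family of types is exceptional (`exceptionalFamilies ν K M`) if the property `Q` is false
for it. The theorem bounds the number of the exceptional families: it is at most `2 ^ (∑ i, g
i) * ∑ i, C * (n i) ^ 2 * rate (K i) (g i) (q i)`, with an absolute constant `C`. Here `q i` is any
prime factor of `g i` (or `q i = 1`), and `rate K g q` is `(1 + log (2 g)) ^ 16` times the smaller
of the numbers

* `W (K) / √g`, where (second part of the theorem, `WeightEstimate`) `W (K) ≤ N ^ 2 * D ^ (1 / 4)`;
  `N` is the number of the CM subfields of `K` (with `K`) and `D` is the largest degree of a CM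
  subfield of `K` that is normal over `ℚ` with a nonabelian Galois group (`D = 1` if there are
  none);
* `√g / q`.

So the exceptional types are a proportion `O (n ^ 2 * g ^ (-1 / 4) * (log g) ^ 16)` of all types of
all CM fields with a bounded number of CM subfields, and `O (n ^ 2 * g ^ (-1 / 2) * (log g) ^ 16)`
if the normal nonabelian ones have bounded degrees (for instance if `K` has no proper CM subfields
and is not normal). And they are a proportion `O (n ^ 2 * g ^ (-δ) * (log g) ^ 16)` of the types of
all CM fields `K`, with any number of subfields, whose degree is divisible by a prime number `q ≥ g
^ (1 / 2 + δ)`; for small `δ` there are such primes for about `log 2`, that is 69%, of all numbers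
`g`. Some assumption is necessary: a multiquadratic CM field of degree `2 g` has `g` imaginary
quadratic subfields, and almost all of its types are degenerate. Nothing is assumed about the Galois
groups.

The number `W (K)` (`subfieldWeight K`) is defined as follows. The automorphisms of `ℂ` act on the
rational functions on the set of the complex embeddings of `K` which change their sign under complex
conjugation. A field of definition (`fieldsOfDefinition K`) of an isotypic component of this
representation is a smallest subfield `F` of `K` such that the values of the functions in the
component depend only on the restrictions of the embeddings to `F`. It is a CM field. Then `W (K)`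
is the sum over these fields `F` of the number of the CM subfields of `F`, multiplied by `[F : ℚ] ^
(1 / 4)` if `F` is normal over `ℚ` and its Galois group is not abelian.

The proof: if the types have no relations then all relations between the Frobenius eigenvalues of
`Y` come from complex conjugate pairs and from supersingular factors, and the Tate classes are
generated by classes of divisors (`TH170/GS`, `TH117` of the starting files). The bound for the
number of the degenerate types (the counting part of the theorem) is the one of `AllCMFields`
(MP_e12fcd_ag, MP_ee618e_ag) of the starting files. By Kahn's argument, formalized in the starting files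
(`W495/FM`), rational and homological equivalence coincide on these abelian varieties, hence on `P`.
So the degree in `Y` defines a filtration of `CH^i(X)`, on the graded parts of which the
correspondences operate through their classes in cohomology, and such a filtration is the one of
every Chow–Künneth decomposition. Cycles on `P` of degree `l > i` in `Y` are zero on the generic
fibre: by the Lefschetz operators of `X₀` they come from cycles the dimension of which is smaller
than that of `Y` (`Run7/h312/MU`).
-/

set_option autoImplicit false

namespace Pool.Agent.Results.MP_10f4af_ag.AllCMFields

open NumberField Module Pool.Agent.H204R3.CM Pool.Agent.H977R3.CM Pool.Agent.TH170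
  Pool.Agent.Y1.KN Pool.Agent.Run7.h312 Pool.Agent.W495.FM

/-- The exceptional families of CM types. -/
def exceptionalFamilies {p : ℕ} [Fact p.Prime] (ν : PadicAlgCl p ≃+* ℂ) {I : Type} (K : I → Type)
    [∀ i, Field (K i)] (M : ∀ i, (K i →+* ℂ) → ℤ) : Set (∀ i, Set (K i →+* ℂ)) :=
  {Φ | (∀ i, IsCMType (Φ i)) ∧
    ¬ MU.HoldsFor ν fun _ _ _ Y C => GS.OfTypes K M Φ Y ∧ IsChow C}

/-- **The Chow–Künneth filtration of isotrivial varieties over function fields is independent of the
decomposition, for the class generated by abelian varieties with almost all slope types of all CM
fields with few CM subfields, and of all CM fields whose degree has a large prime factor.** -/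
theorem result :
    (∃ C : ℝ, 0 ≤ C ∧ ∀ (p : ℕ) [Fact p.Prime] (ν : PadicAlgCl p ≃+* ℂ) (I : Type) [Fintype I]
      (K : I → Type) [∀ i, Field (K i)] [∀ i, NumberField (K i)] [∀ i, IsCMField (K i)]
      (M : ∀ i, (K i →+* ℂ) → ℤ) (n g q : I → ℕ), PairwiseIndep K →
      (∀ i φ, M i (ComplexEmbedding.conjugate φ) = M i φ) → (∀ i, n i ≠ 0) →
      (∀ i φ, M i φ ∣ (n i : ℤ)) → (∀ i, finrank ℚ (K i) = 2 * g i) →
      (∀ i, q i ∣ g i ∧ (q i = 1 ∨ (q i).Prime)) →
      ((exceptionalFamilies ν K M).ncard : ℝ) ≤
        2 ^ (∑ i, g i) * ∑ i, C * (n i : ℝ) ^ 2 * rate (K i) (g i) (q i)) ∧
    WeightEstimate := by
  obtain ⟨C, hC0, hC⟩ := slope families_holds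
  refine ⟨⟨C, hC0, ?_⟩, weight_estimate_holds⟩
  intro p _ ν I _ K _ _ _ M n g q hind hM hn hMn hg hq
  exact hC p ν I K M n g q hind hM hn hMn hg hq _ fun Φ h => MU.holdsFor_of fun _ _ _ _ Y _ hY =>
    ⟨hY.2, (h Y hY.1).elim fun _ h1 => TH117.GN.tateHolds_elem h1.1 h1.2 hY.2⟩

end Pool.Agent.Results.MP_10f4af_ag.AllCMFields
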