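import Pool.Agent.Run7.h312.MU.Elem

/-!
# Independence of the Chow–Künneth filtration of isotrivial varieties over function fields: abelian
varieties with elementary relations between the Frobenius eigenvalues

The abelian varieties. Over an algebraic closure of the field with `p` elements each abelian
variety is isogenous to the reduction of an abelian variety of CM type (Honda, Tate). So an abelian
variety over the field with `p ^ a` elements is modelled by `RedAV`: a finite product of CM types `(E
i, Φ i)` with Weil numbers `π i ∈ E i` that satisfy the formula of Shimura and Taniyama; its
cohomology of degree `n`, with coefficients in an algebraically closed field `Ω`, consists of the
alternating `n`-forms on `Ω ⊗ H_1`, on which the Frobenius endomorphism acts by `π`. We consider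
the abelian varieties `Y` that are, over an algebraic closure, isogenous to products of powers of
simple factors of an abelian variety `Z` and of a supersingular abelian variety
(`IsPowersTimesSupersingular`), where `Z` has elementary relations (`HasElementaryRelations`): the
multiplicative relations between the eigenvalues of Frobenius on `H^1(Z)` and `q` are consequences of
those which

* involve at most two eigenvalues, or
* involve only eigenvalues of factors of `Z` whose dimensions add up to at most five, no two of
  which form an exceptional pair; or of factors of dimension at most three, any two of which are
  isogenous if their CM fields have the same Galois closure, unless these fields are Galois over `ℚ` or
  one of the factors is supersingular, or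
* belong to Weil classes of an imaginary quadratic field on an abelian variety of dimension three,
  four or five, or of dimension six if `p` splits in this field.

So for instance `Z` may be any abelian variety of dimension at most five without exceptional pairs
(second part of the theorem); in particular any simple abelian variety of dimension at most five, or
any product of abelian surfaces and threefolds the CM fields of which have different Galois
closures.

## Function fields

Let `Y` be smooth, projective and geometrically connected over the finite field `k`, of any
dimension, with the function field `K = k(Y)`. A constant variety `X` over `K` is the base change of a
smooth projective variety `X₀` over `k`. Put `P = X₀ × Y`. We assume that the motive of `P` is a direct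
summand of a finite direct sum of twists of motives of abelian varieties as above
(`IsSummandOfTwists`). For example `X₀` and `Y` may be products of such abelian varieties, of curves
the Jacobians of which are such abelian varieties, symmetric powers of them, and so on (such that
the products of these abelian varieties are of the same kind). `Cyc` are the data of the Chow groups of
`P`, the groups `H^(2 i)(P)` and the class map. `Fibre` are the data of the restriction `CH^i(P) →
CH^i(X)` of cycles to the generic fibre and of the Künneth components of the classes in `H^(2 i)(P)`,
and `IsConstant` lists the formal properties that are used. `Variety` are the data of the Chow groups
with rational coefficients, the cohomology, the ring of the correspondences of degree zero (not only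
the constant ones: all elements of `CH^d(X ×_K X)`) and its operations.

`Summand X' X` are data for a smooth projective variety `X'` over a field `K'` contained in `K` (or
over `K`) the motive of which is, over `K`, a direct summand of the motive of a constant variety `X`:
for instance an isotrivial variety (a variety over `K'` that is constant over a finite extension `K`
of `K'`), or a variety which is dominated by a constant variety.

A Chow–Künneth decomposition (`IsCK`) `π` of `X'` gives the filtration `F^k CH^i(X') = (π (2 i - k) +
⋯ + π 0)_* CH^i(X')` (`InF`). It is not trivial in general: for example `F^1 CH^1(X') = Pic^0(X') ⊗ ℚ`
is given by the homomorphisms of the Albanese variety of `Y` to an abelian variety, and the graded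
parts of higher degree by the transcendental parts of the motives `h^l(Y)`.

The theorem: for all such `X'`

* (`OneFiltration`) **all Chow–Künneth decompositions of `X'` induce the same filtration of
  `CH^i(X')`**, for all `i` (Murre's conjecture (C), the question). Moreover `F^0 = CH^i(X')`, `F^1` is
  the group of the homologically trivial cycles (Murre's conjecture (D)), all correspondences `γ`
  respect the filtration, and `γ` maps `F^k` to `F^(k + 1)` if it is zero on `H^(2 i - k)(X')`.
* (`Ends`) `F^(i + 1) CH^i(X') = 0` (Murre's conjecture (B)), if `X₀` satisfies the standard conjecture
  of Lefschetz type (`IsLefschetz`), which is known for abelian varieties, curves and products of them.

Properties of the theory of cycles that are used for the abelian varieties (`IsChow`): Poincaré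
duality, the formal properties of correspondences, the nilpotence of homologically trivial
correspondences (Kimura), the operation of the Frobenius endomorphism on the Chow groups, and the
algebraicity of the Tate classes in `Alg` (theorems of Tate and Markman).

The proof: by the starting files (`TH117`) the Tate classes on these abelian varieties are generated
by Tate classes of degree two and Weil classes, so they are algebraic. By Kahn's argument, formalized in the starting files
(`W495/FM`), rational and homological equivalence coincide on these abelian varieties, hence on `P`.
So the degree in `Y` defines a filtration of `CH^i(X)`, on the graded parts of which the
correspondences operate through their classes in cohomology, and such a filtration is the one of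
every Chow–Künneth decomposition. Cycles on `P` of degree `l > i` in `Y` are zero on the generic
fibre: by the Lefschetz operators of `X₀` they come from cycles the dimension of which is smaller
than that of `Y` (`Run7/h312/MU`).
-/

set_option autoImplicit false

namespace Pool.Agent.Results.MP_10f4af_ag.ElementaryRelations

open Pool.Agent.W495.TA Pool.Agent.W495.FM Pool.Agent.TH117 Pool.Agent.Run7.h312

/-- (1) **The Chow–Künneth filtration of isotrivial varieties over function fields is independent of
the decomposition, for the class generated by the abelian varieties which are, over an algebraic
closure, products of powers of the simple factors of abelian varieties with elementary relations and
of supersingular ones.** (2) Abelian varieties of dimension at most five without exceptional pairs,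
and abelian varieties with factors of dimension at most three as in `IsGoodSet`, have elementary
relations. -/
theorem result (p : ℕ) [Fact p.Prime] (ν : PadicAlgCl p ≃+* ℂ) :
    (MU.HoldsFor ν fun _ _ _ Y C => (∃ Z : RedAV p ν, BL.HasElementaryRelations Z ∧
      BL.IsPowersTimesSupersingular Z Y) ∧ IsChow C) ∧
    ∀ Z : RedAV p ν, BL.IsGoodSet Z Set.univ → BL.HasElementaryRelations Z :=
  MU.elem p ν

end Pool.Agent.Results.MP_10f4af_ag.ElementaryRelations
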