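import Mathlib
import Pool.Agent.Run7.h879.HA.Bridge
import Pool.Agent.Run7.h312.MU.Main
import Pool.Agent.TH117.GN.Main

/-!
# Independence of the Chow–Künneth filtration of isotrivial varieties over function fields: one half
of all slope types of every CM field of degree `2 r ^ k`

Over an algebraic closure of the field with `p` elements each abelian variety is isogenous to the
reduction of an abelian variety of CM type (Honda, Tate). So an abelian variety over the field with
`p ^ a` elements is modelled by `RedAV`: a finite product of CM types `(E i, Φ i)` with Weil numbers
`π i ∈ E i` that satisfy the formula of Shimura and Taniyama; its cohomology of degree `n`, with
coefficients in an algebraically closed field `Ω`, consists of the alternating `n`-forms on `Ω ⊗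
H_1`, on which the Frobenius endomorphism acts by `π`. We fix an isomorphism `ν` of the algebraic
closure of `ℚ_p` with `ℂ`; it defines a `p`-adic valuation of `ℂ`, with the value one at `p`.

Let `K i` be finitely many CM fields, of degrees `2 g i`, that are pairwise independent: for `i ≠ k`
and all complex embeddings `φ` of `K i` and `ψ` of `K k` some automorphism of `ℂ` is the identity on
`φ (K i)` and the complex conjugation on `ψ (K k)` (this is no condition for one field). Nothing is
assumed about their Galois groups. Let `M i` be a function with integral values on the complex
embeddings of `K i`, invariant under complex conjugation (the weights). A CM type `Φ i` of `K i` (a
choice of one element out of each complex conjugate pair of embeddings; there are `2 ^ (g i)`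
types), `M i` and a real number `κ ≠ 0` prescribe the slopes `(a + κ M) / 2` (at the embeddings in
`Φ i`) and `(a - κ M) / 2` (outside of `Φ i`) of a Weil number in `K i`. If `p` splits completely in
`K i` then, by Honda and Tate, all slopes with rational values between `0` and `a` that are
symmetric in this way occur for abelian varieties. The case `M = 1`, `κ = a` is the ordinary case.
Slopes are rational, so integral weights `M` are no restriction.

For a family of types `Φ i` let `𝒞` (`OfTypes`) be the class of the abelian varieties `Y` each of
whose factors is supersingular or has a Frobenius endomorphism some power of which is, for some `i`,
a Weil number in `K i` with the slopes prescribed by `Φ i`, `M i` and some real number `κ i ≠ 0`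
(which depends only on `Y` and `i`). So `Y` is, over an algebraic closure, isogenous to a product of
powers of one abelian variety for each `i`, with the given slopes, and of a supersingular one.

Let `Y` be smooth, projective and geometrically connected over the finite field `k`, of any
dimension, with the function field `K = k(Y)`. A constant variety `X` over `K` is the base change of a
smooth projective variety `X₀` over `k`. Put `P = X₀ × Y`. We assume that the motive of `P` is a direct
summand of a finite direct sum of twists of motives of abelian varieties as above
(`IsSummandOfTwists`). For example `X₀` and `Y` may be products of such abelian varieties, of curves
the Jacobians of which are such abelian varieties, symmetric powers of them, and so on (such that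
the products of these abelian varieties are of the same kind). `Cyc` are the data of the Chow groups of
`P`, the groups `H^(2 i)(P)` and the class map. `Fibre` are the data of the restriction `CH^i(P) →
CH^i(X)` of cycles to the generic fibre and of the Künneth components of the classes in `H^(2 i)(P)`,
and `IsConstant` lists the formal properties that are used. `Variety` are the data of the Chow groups
with rational coefficients, the cohomology, the ring of the correspondences of degree zero (not only
the constant ones: all elements of `CH^d(X ×_K X)`) and its operations.

`Summand X' X` are data for a smooth projective variety `X'` over a field `K'` contained in `K` (or
over `K`) the motive of which is, over `K`, a direct summand of the motive of a constant variety `X`: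
for instance an isotrivial variety (a variety over `K'` that is constant over a finite extension `K`
of `K'`), or a variety which is dominated by a constant variety.

A Chow–Künneth decomposition (`IsCK`) `π` of `X'` gives the filtration `F^k CH^i(X') = (π (2 i - k) +
⋯ + π 0)_* CH^i(X')` (`InF`). It is not trivial in general: for example `F^1 CH^1(X') = Pic^0(X') ⊗ ℚ`
is given by the homomorphisms of the Albanese variety of `Y` to an abelian variety, and the graded
parts of higher degree by the transcendental parts of the motives `h^l(Y)`.

The property `Q` of a family of types (`HoldsFor`, for the abelian varieties in `𝒞`): for all such `X'`

* (`OneFiltration`) **all Chow–Künneth decompositions of `X'` induce the same filtration of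
  `CH^i(X')`**, for all `i` (Murre's conjecture (C), the question). Moreover `F^0 = CH^i(X')`, `F^1` is
  the group of the homologically trivial cycles (Murre's conjecture (D)), all correspondences `γ`
  respect the filtration, and `γ` maps `F^k` to `F^(k + 1)` if it is zero on `H^(2 i - k)(X')`.
* (`Ends`) `F^(i + 1) CH^i(X') = 0` (Murre's conjecture (B)), if `X₀` satisfies the standard conjecture
  of Lefschetz type (`IsLefschetz`), which is known for abelian varieties, curves and products of them.

Properties of the theory of cycles that are used for the abelian varieties (`IsChow`): Poincaré
duality, the formal properties of correspondences, the nilpotence of homologically trivial
correspondences (Kimura), the operation of the Frobenius endomorphism on the Chow groups, and the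
algebraicity of the classes in `Alg` (of which only products of classes of divisors matter here,
theorem of Tate).

**The theorem.** Let `E` be **any CM field of degree `2 g = 2 r ^ k`**, `r` a prime number, of
degree at least `16` if `r = 2`. Nothing is assumed about the Galois group of the normal closure of
`E`, and nothing about the subfields of `E`.

* (`HalfOfAll`) For all weights `M` (odd if `r = 2`; if `r` is odd then `r` may divide some, but not
  all of them) the property `Q` is true for **at least one half of all `2 ^ g` types** of `E`.
* (`MostWithWeightsOne`) For the weights `M = 1` (for instance in the ordinary case) it is true for
  at least `(1 - 1 / r) 2 ^ g` of the types.
* (`OneOfTwo`) There is a set `B` of embeddings of `E`, stable under complex conjugation, such that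
  for **every** type `Φ` it is true for `Φ` or for the symmetric difference of `Φ` and `B`.
* (`SixteenPercent`) There is a number `g₀` such that for every CM field that is **abelian over
  `ℚ`**, of any degree `2 g ≥ 2 g₀`, and all odd weights it is true for at least 16 percent of all
  `2 ^ g` types; again nothing is assumed on the subfields.

All this is proved more generally for finitely many pairwise independent fields `K i`; the
proportions are then multiplied. Bounds of other starting files for the number of the exceptional
types can say nothing for these fields if they have many CM subfields (for instance for the
multiquadratic ones, where one half is the best possible proportion for the types without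
relations).

The proof: if the types have no relations then all relations between the Frobenius eigenvalues of
`Y` come from complex conjugate pairs and from supersingular factors, and the Tate classes are
generated by classes of divisors (`TH170/GS`, `TH117` of the starting files). The proportion of the
types without relations (`NoRelations`) is at least one half by the theorem of the starting files
(`Q29/DP`, `Q29/EP`), which was used there for other conjectures. By Kahn's argument, formalized in the starting files
(`W495/FM`), rational and homological equivalence coincide on these abelian varieties, hence on `P`.
So the degree in `Y` defines a filtration of `CH^i(X)`, on the graded parts of which the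
correspondences operate through their classes in cohomology, and such a filtration is the one of
every Chow–Künneth decomposition. Cycles on `P` of degree `l > i` in `Y` are zero on the generic
fibre: by the Lefschetz operators of `X₀` they come from cycles the dimension of which is smaller
than that of `Y` (`Run7/h312/MU`).
-/

set_option autoImplicit false

namespace Pool.Agent.Results.MP_10f4af_ag.HalfOfAllTypes

open NumberField Module Pool.Agent.H204R3.CM Pool.Agent.H977R3.CM Pool.Agent.TH170
  Pool.Agent.Q29.EP Pool.Agent.Run7.h879.HA Pool.Agent.Run7.h312 Pool.Agent.W495.FM

/-- The property of the families of slope types. -/
def Q : TypeProperty := fun _ _ ν _ _ K _ _ _ M Φ =>
  MU.HoldsFor ν fun _ _ _ Y C => GS.OfTypes K M Φ Y ∧ IsChow C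

/-- **The Chow–Künneth filtration of isotrivial varieties over function fields is independent of the
decomposition, for the class generated by abelian varieties with one half of all slope types of
every CM field of degree `2 r ^ k`.** -/
theorem result : HalfOfAll Q ∧ MostWithWeightsOne Q ∧ OneOfTwo Q ∧ SixteenPercent Q :=
  four (of_elementary fun _ _ _ _ _ _ _ _ _ _ _ h => MU.holdsFor_of fun _ _ _ _ Y _ hY =>
    ⟨hY.2, (h Y hY.1).elim fun _ h1 => TH117.GN.tateHolds_elem h1.1 h1.2 hY.2⟩)

end Pool.Agent.Results.MP_10f4af_ag.HalfOfAllTypes
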