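import Pool.Agent.Run7.h192.Murre.Geo

/-!
# Independence of the Chow–Künneth filtration and one triangular decomposition

Let `𝒱` be a class of smooth projective varieties over a field `k` which is closed under products
(for example all of them), with Chow groups `C` (rational coefficients) and a Weil cohomology theory
`W`.

1. Suppose that the only idempotent in `CH^(dim X)(X × X)` which acts as zero on cohomology is `0`,
   and that `X` has **one** Chow–Künneth decomposition `π` with `π b ∘ γ ∘ π a = 0` for all `a < b`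
   and all correspondences `γ` of degree zero. Then all filtrations `F^k CH^i(X)` are independent of
   the decomposition, `π' b ∘ γ ∘ π'' a = 0` for all `a < b` and all Chow–Künneth decompositions
   `π'`, `π''` of `X`, and each of them is conjugate to `π` under an invertible correspondence which
   acts as the identity on the cohomology.
2. Suppose that `X` has dimension at least `1` and a Chow–Künneth decomposition, and that
   `F^0 CH^(dim X)(X × X)` is independent of the decomposition of `X × X`. Then the only idempotent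
   in `CH^(dim X)(X × X)` which acts as zero on cohomology is `0`, and the vanishing of 1 holds
   for all decompositions of `X`.
3. All `X` have a Chow–Künneth decomposition and independence holds for all `X`, if and only if
   each `X` is as in 1.
-/

open Pool.Agent.H914 Pool.Agent.R903 Pool.Agent.Run7.h192.Murre

universe u v w

namespace Pool.Agent.Results.MP_10f4af_ag.OneTriangularDecomposition

theorem result {k : Type u} [Field k] {𝒱 : VarClass k} {C : ChowTheory.{u, v} 𝒱}
    (W : WeilTheory.{u, v, w} C) :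
    (∀ X : 𝒱.Obj, W.NoPhantoms X → ∀ π : ℕ → C.CH (X.prod X), W.IsCK X π → C.IsTriangular π →
      W.MurreC X ∧ W.Triangular X ∧
        ∀ π' : ℕ → C.CH (X.prod X), W.IsCK X π' → Conjugate W π π') ∧
    (∀ X : 𝒱.Obj, 1 ≤ X.dim →
      (W.HasCK X ∧ W.Triangular X ↔
        W.NoPhantoms X ∧ ∃ π : ℕ → C.CH (X.prod X), W.IsCK X π ∧ C.IsTriangular π)) ∧
    (C.Polarized → (∀ X : 𝒱.Obj, 1 ≤ X.dim → W.HasCK X → W.Indep (X.prod X) X.dim 0 →
      W.NoPhantoms X ∧ W.Triangular X) ∧
      ((∃ Y : 𝒱.Obj, 1 ≤ Y.dim) →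
        ((∀ X : 𝒱.Obj, W.HasCK X ∧ W.MurreC X) ↔
          ∀ X : 𝒱.Obj, W.NoPhantoms X ∧
            ∃ π : ℕ → C.CH (X.prod X), W.IsCK X π ∧ C.IsTriangular π))) := by
  have h1 : ∀ X : 𝒱.Obj, W.NoPhantoms X → ∀ π : ℕ → C.CH (X.prod X), W.IsCK X π →
      C.IsTriangular π → W.MurreC X ∧ W.Triangular X ∧
        ∀ π' : ℕ → C.CH (X.prod X), W.IsCK X π' → Conjugate W π π' := fun X hN π h hT =>
    ⟨(triangular_of_one hN h hT).murreC, triangular_of_one hN h hT,
      fun π' h' => conjugate_of_one hN h hT h'⟩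
  have h2 : ∀ X : 𝒱.Obj, W.HasCK X → W.Triangular X →
      ∃ π : ℕ → C.CH (X.prod X), W.IsCK X π ∧ C.IsTriangular π := by
    rintro X ⟨π, h⟩ hT
    exact ⟨π, h, fun a b hab γ hγ => hT π π h h a b hab γ hγ⟩
  refine ⟨h1, fun X hd => ⟨fun h => ⟨noPhantoms_of_triangular hd h.1 h.2, h2 X h.1 h.2⟩, ?_⟩,
    fun hP => ⟨fun X hd hCK hI => ?_, ?_⟩⟩
  · rintro ⟨hN, π, h, hT⟩
    exact ⟨⟨π, h⟩, triangular_of_one hN h hT⟩
  · have hT := (hI.murreB0 hP).triangular
    exact ⟨noPhantoms_of_triangular hd hCK hT, hT⟩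
  · rintro ⟨Y, hY⟩
    have hT : (∀ X : 𝒱.Obj, W.HasCK X ∧ W.MurreC X) → ∀ X : 𝒱.Obj, W.Triangular X :=
      fun h X => (((h (X.prod X)).2 X.dim 0).murreB0 hP).triangular
    constructor
    · intro h X
      refine ⟨noPhantoms_of_prod hP Y ?_, h2 X (h X).1 (hT h X)⟩
      refine noPhantoms_of_triangular ?_ (h _).1 (hT h _)
      rw [VarClass.Obj.dim_prod]
      omega
    · intro h X
      obtain ⟨hN, π, hπ, hTπ⟩ := h X
      exact ⟨⟨π, hπ⟩, (triangular_of_one hN hπ hTπ).murreC⟩

end Pool.Agent.Results.MP_10f4af_ag.OneTriangularDecomposition
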